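import Pool.Agent.Mg.F019006.Ge7f3ce

set_option autoImplicit false

open MeasureTheory Filter Topology

namespace Pool.Agent.Results.MP_019006_gt.RatioAboveTwo

variable {E : Type} [NormedAddCommGroup E] [NormedSpace ℝ E]

/-- `g` is a smooth Riemannian metric on the set `Ω`: its coefficients are smooth and each `g x`
is a symmetric positive definite bilinear form. -/
def IsRiemannian (Ω : Set E) (g : E → E → E → ℝ) : Prop :=
  (∀ (u w : E) (n : ℕ), ContDiffOn ℝ n (fun x => g x u w) Ω) ∧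
    ∀ x ∈ Ω, (∀ u : E, IsLinearMap ℝ (g x u)) ∧ (∀ u w : E, g x u w = g x w u) ∧
      ∀ u : E, u ≠ 0 → 0 < g x u u

/-- `Γ` is the Christoffel map of `g` on `Ω` (Koszul formula). -/
def IsChristoffel (Ω : Set E) (g : E → E → E → ℝ) (Γ : E → E → E → E) : Prop :=
  ∀ x ∈ Ω, ∀ u v w : E, 2 * g x (Γ x u v) w =
    fderiv ℝ (fun y => g y v w) x u + fderiv ℝ (fun y => g y u w) x v -
      fderiv ℝ (fun y => g y u v) x w

/-- The curvature tensor `R(u,v)w` at `x`. -/
noncomputable def curv (Γ : E → E → E → E) (x u v w : E) : E :=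
  fderiv ℝ (fun y => Γ y v w) x u - fderiv ℝ (fun y => Γ y u w) x v +
    Γ x u (Γ x v w) - Γ x v (Γ x u w)

/-- All sectional curvatures are negative on `Ω`. -/
def NegCurved (Ω : Set E) (g : E → E → E → ℝ) (Γ : E → E → E → E) : Prop :=
  ∀ x ∈ Ω, ∀ u v : E, LinearIndependent ℝ ![u, v] → g x (curv Γ x u v v) u < 0

/-- A free, properly discontinuous, cocompact action of `G` on `Ω` by smooth isometries. -/
def IsDeckAction (Ω : Set E) (g : E → E → E → ℝ) (G : Type) [Group G]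
    (act : G → E → E) : Prop :=
  (∀ a : G, ∀ x ∈ Ω, act a x ∈ Ω) ∧ (∀ x ∈ Ω, act 1 x = x) ∧
    (∀ a b : G, ∀ x ∈ Ω, act (a * b) x = act a (act b x)) ∧
    (∀ (a : G) (n : ℕ), ContDiffOn ℝ n (act a) Ω) ∧
    (∀ a : G, ∀ x ∈ Ω, ∀ u w : E,
      g (act a x) (fderiv ℝ (act a) x u) (fderiv ℝ (act a) x w) = g x u w) ∧
    (∀ a : G, ∀ x ∈ Ω, act a x = x → a = 1) ∧
    (∀ K : Set E, K ⊆ Ω → IsCompact K → {a : G | (act a '' K ∩ K).Nonempty}.Finite) ∧
    ∃ K : Set E, K ⊆ Ω ∧ IsCompact K ∧ ∀ x ∈ Ω, ∃ a : G, act a x ∈ K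

/-- `φ` is the (complete, differentiable) geodesic flow on the tangent bundle `Ω × E`. -/
def IsGeodesicFlow (Ω : Set E) (Γ : E → E → E → E) (φ : ℝ → E × E → E × E) : Prop :=
  ∀ p : E × E, p.1 ∈ Ω → φ 0 p = p ∧ ∀ t : ℝ, (φ t p).1 ∈ Ω ∧
    HasDerivAt (fun s => φ s p) ((φ t p).2, -Γ (φ t p).1 (φ t p).2 (φ t p).2) t ∧
    DifferentiableAt ℝ (φ t) p

/-- The Sasaki norm of a tangent vector `ξ` to the tangent bundle at `p`. -/
noncomputable def sasaki (g : E → E → E → ℝ) (Γ : E → E → E → E) (p ξ : E × E) : ℝ :=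
  Real.sqrt (g p.1 ξ.1 ξ.1 + g p.1 (ξ.2 + Γ p.1 p.2 ξ.1) (ξ.2 + Γ p.1 p.2 ξ.1))

/-- `χ` is the exponential growth rate, as time tends to the filter `l`, of some non-zero vector
tangent to the sphere bundle at `p`. -/
def IsExponentAlong (l : Filter ℝ) (g : E → E → E → ℝ) (Γ : E → E → E → E)
    (φ : ℝ → E × E → E × E) (p : E × E) (χ : ℝ) : Prop :=
  ∃ ξ : E × E, ξ ≠ 0 ∧ fderiv ℝ (fun q : E × E => g q.1 q.2 q.2) p ξ = 0 ∧
    Tendsto (fun t : ℝ => Real.log (sasaki g Γ (φ t p) (fderiv ℝ (φ t) p ξ)) / t) l (𝓝 χ)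

/-- The `g`-unit vector in the direction of `p`. -/
noncomputable def unitVec (g : E → E → E → ℝ) (p : E × E) : E × E :=
  (p.1, (Real.sqrt (g p.1 p.2 p.2))⁻¹ • p.2)

end Pool.Agent.Results.MP_019006_gt.RatioAboveTwo

namespace Pool.Agent.Results.MP_019006_gt.RatioAboveTwo

open Pool.Agent.MP_019006_gt (exists_world Bl gg Gam mob isOpen_Bl isRiemannian_gg
  isChristoffel_Gam negCurved isDeckAction isGeodesicFlow)

/-- There is a closed negatively curved Riemannian 4-manifold `Ω / G` such that at Liouville almost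
every unit vector the largest positive Lyapunov exponent of the geodesic flow is more than twice
the smallest positive one. -/
theorem result :
    ∃ (E : Type) (_ : NormedAddCommGroup E) (_ : NormedSpace ℝ E) (_ : MeasurableSpace E)
      (_ : BorelSpace E) (μ : Measure (E × E)) (_ : μ.IsAddHaarMeasure)
      (Ω : Set E) (g : E → E → E → ℝ) (Γ : E → E → E → E)
      (G : Type) (_ : Group G) (act : G → E → E) (φ : ℝ → E × E → E × E),
      Module.finrank ℝ E = 4 ∧ IsOpen Ω ∧ IsConnected Ω ∧ IsRiemannian Ω g ∧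
      IsChristoffel Ω g Γ ∧ NegCurved Ω g Γ ∧ IsDeckAction Ω g G act ∧ IsGeodesicFlow Ω Γ φ ∧
      ∀ᵐ p ∂μ, p.1 ∈ Ω → p.2 ≠ 0 →
        ∃ a b : ℝ, 0 < b ∧ 2 < a / b ∧
          IsExponentAlong (atTop ⊔ atBot) g Γ φ (unitVec g p) a ∧
          IsExponentAlong (atTop ⊔ atBot) g Γ φ (unitVec g p) b ∧
          ∀ χ : ℝ, 0 < χ → IsExponentAlong atTop g Γ φ (unitVec g p) χ → b ≤ χ ∧ χ ≤ a := by
  obtain ⟨G, iG, iC, ρ, f, β, φ, M, e, r, R, hW, -, h2⟩ := exists_world
  have hR := isRiemannian_gg hW.sm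
  refine ⟨EuclideanSpace ℂ (Fin 2), inferInstance, inferInstance, inferInstance, inferInstance,
    volume, Measure.prod.instIsAddHaarMeasure volume volume, Bl, fun x u w => gg f x u w, Gam f, G, iG, fun a => mob (ρ a), φ,
    ?_, isOpen_Bl, Metric.isConnected_ball one_pos, ⟨fun u w n => ?_, fun x hx => ⟨fun u => ?_, ?_⟩⟩,
    isChristoffel_Gam hW.sm, negCurved hW.ctx.conf, isDeckAction hW.lat f hW.finv,
    isGeodesicFlow hW.ctx.flow, hW.ae_two h2⟩
  · rw [← Module.finrank_mul_finrank ℝ ℂ (EuclideanSpace ℂ (Fin 2)), Complex.finrank_real_complex,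
      finrank_euclideanSpace_fin]
  · exact ((hR.1 n).clm_apply contDiffOn_const).clm_apply contDiffOn_const
  · exact ⟨map_add _, map_smul _⟩
  · exact hR.2 x hx

end Pool.Agent.Results.MP_019006_gt.RatioAboveTwo
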